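import Pool.Agent.TH854.BV.Growth
import Pool.Agent.TH854.BV.Four

/-!
# MP_d5a1e1_nt: a second moment inequality for bounded representation functions, with the constant
`1 - 1 / C(h, ⌊h/2⌋)`

`rep A h n` is the number `r(n)` of multisets of `h` elements of `A` with sum `n`.  Let
`λ(q) = (1 - q) ∑ q^n r(n)` and `μ(q) = (1 - q) ∑ q^n r(n)^2` be the Abel means of `r` and `r^2`.
If `A` is infinite and `r` is bounded then, for `q → 1`,
`μ(q) ≥ λ(q)^2 + (1 - 1 / C(h, ⌊h/2⌋)) λ(q) - o(1)`.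

This is `result`.  Two consequences are added after it: `growth_constant`, an explicit lower bound
for `limsup r` in terms of the growth of `A`; and `critical_interval`, on the structure of
representation functions with values in `[s^2, (s+1)^2]` (for `s = 1`: in a hypothetical asymptotic
basis of order `h` with `r ≤ 4` the integers with `r ∈ {2, 3}` have upper Abel density at most
`2 / C(h, ⌊h/2⌋)`).
-/

set_option autoImplicit false

open Filter Topology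

namespace Pool.Agent.Results.MP_d5a1e1_nt.BinomialVariance

/-- `r_{A,h}(n)`: the number of multisets of `h` elements of `A` with sum `n` -/
noncomputable def rep (A : Set ℕ) (h n : ℕ) : ℕ :=
  Set.ncard {s : Multiset ℕ | Multiset.card s = h ∧ (∀ a ∈ s, a ∈ A) ∧ s.sum = n}

/-- the Abel mean `(1 - q) ∑ q^n f(n)` of `f` -/
noncomputable def mean (f : ℕ → ℝ) (q : ℝ) : ℝ := (1 - q) * ∑' n : ℕ, q ^ n * f n

/-- the counting function `A(n)`, the number of elements of `A` in `[1, n]` -/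
noncomputable def count (A : Set ℕ) (n : ℕ) : ℕ := Set.ncard {a : ℕ | a ∈ A ∧ 1 ≤ a ∧ a ≤ n}

lemma split (h : ℕ) : (h - h / 2) + h / 2 = h := by omega

lemma law (h : ℕ) (hh : 2 ≤ h) (A : Set ℕ) (hA : A.Infinite) (K : ℕ) (hK : ∀ n, rep A h n ≤ K)
    (ε : ℝ) (hε : 0 < ε) :
    ∀ᶠ q : ℝ in 𝓝[<] 1, (mean (fun n => (rep A h n : ℝ)) q) ^ 2 +
      (1 - 1 / (h.choose (h / 2) : ℝ)) * mean (fun n => (rep A h n : ℝ)) q - ε ≤
        mean (fun n => (rep A h n : ℝ) ^ 2) q := by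
  have h1 := Pool.Agent.TH854.BV.law A hA (h - h / 2) (h / 2) (by omega) (by omega) K (by
    intro n
    rw [split]
    exact hK n) ε hε
  rw [split] at h1
  exact h1

lemma growth (h : ℕ) (hh : 2 ≤ h) (A : Set ℕ) (hA : A.Infinite) (g : ℕ) (hg1 : 1 ≤ g)
    (hg : ∀ᶠ n in atTop, rep A h n ≤ g) (c : ℝ) (hc : 0 ≤ c)
    (hAc : ∀ᶠ n : ℕ in atTop, c * (n : ℝ) ^ ((1 : ℝ) / h) ≤ (count A n : ℝ)) :
    (c * Real.Gamma (1 + 1 / h)) ^ h ≤ (h.factorial : ℝ) * (g - 1 + 1 / (h.choose (h / 2) : ℝ)) := by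
  rw [eventually_atTop] at hg hAc
  obtain ⟨n₀, hn₀⟩ := hg
  obtain ⟨n₁, hn₁⟩ := hAc
  have h1 := Pool.Agent.TH854.BV.growth A hA (h - h / 2) (h / 2) (by omega) (by omega) g n₀ hg1 (by
    intro n hn
    rw [split]
    exact hn₀ n hn) c hc n₁ (by
    intro n hn
    rw [split, ← one_div]
    refine (hn₁ n hn).trans ?_
    have : count A n ≤ (Pool.Agent.TH854.BV.FT A n).card := by
      unfold count
      rw [← Set.ncard_coe_finset]
      apply Set.ncard_le_ncard _ (Finset.finite_toSet _)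
      rintro a ⟨a1, a2, a3⟩
      exact Pool.Agent.TH854.BV.mem_FT.2 ⟨a1, a3⟩
    exact_mod_cast this)
  rw [split, ← one_div, add_comm (1 / (h : ℝ))] at h1
  exact h1

lemma infinite_of_basis (h : ℕ) (A : Set ℕ) (hr : ∀ᶠ n in atTop, 1 ≤ rep A h n) :
    A.Infinite := by
  intro hfin
  rw [eventually_atTop] at hr
  obtain ⟨n₀, hn₀⟩ := hr
  obtain ⟨M, hM⟩ := hfin.bddAbove
  have h1 := hn₀ (n₀ + h * M + 1) (by omega)
  unfold rep at h1
  have h2 : {s : Multiset ℕ | Multiset.card s = h ∧ (∀ a ∈ s, a ∈ A) ∧ s.sum = n₀ + h * M + 1} = ∅ := by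
    rw [Set.eq_empty_iff_forall_notMem]
    rintro s ⟨s1, s2, s3⟩
    have : s.sum ≤ Multiset.card s • M := Multiset.sum_le_card_nsmul s M (fun a ha => hM (s2 a ha))
    rw [smul_eq_mul, s1] at this
    omega
  rw [h2, Set.ncard_empty] at h1
  omega

/-- Let `h ≥ 2`, `C = C(h, ⌊h/2⌋)` (binomial coefficient) and `r(n) = rep A h n`.  If `A` is infinite
and `r` is bounded then for every `ε > 0` and all `q < 1` close to `1` the Abel means at `q` satisfy
`mean r^2 ≥ (mean r)^2 + (1 - 1 / C) mean r - ε`. -/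
theorem result (h : ℕ) (hh : 2 ≤ h) (A : Set ℕ) (hA : A.Infinite) (hK : ∃ K, ∀ n, rep A h n ≤ K)
    (ε : ℝ) (hε : 0 < ε) :
    ∀ᶠ q : ℝ in 𝓝[<] 1, (mean (fun n => (rep A h n : ℝ)) q) ^ 2 +
      (1 - 1 / (h.choose (h / 2) : ℝ)) * mean (fun n => (rep A h n : ℝ)) q - ε ≤
        mean (fun n => (rep A h n : ℝ) ^ 2) q := by
  obtain ⟨K, hK⟩ := hK
  exact law h hh A hA K hK ε hε

/-- Consequence: if `A` is infinite, `r(n) ≤ g` for all large `n` (`g ≥ 1`), and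
`A(n) ≥ c n^{1/h}` for all large `n`, then `c^h Γ(1 + 1/h)^h ≤ h! (g - 1 + 1 / C)`. -/
theorem growth_constant (h : ℕ) (hh : 2 ≤ h) (A : Set ℕ) (hA : A.Infinite) (g : ℕ) (hg1 : 1 ≤ g)
    (hg : ∀ᶠ n in atTop, rep A h n ≤ g) (c : ℝ) (hc : 0 ≤ c)
    (hAc : ∀ᶠ n : ℕ in atTop, c * (n : ℝ) ^ ((1 : ℝ) / h) ≤ (count A n : ℝ)) :
    (c * Real.Gamma (1 + 1 / h)) ^ h ≤
      (h.factorial : ℝ) * (g - 1 + 1 / (h.choose (h / 2) : ℝ)) :=
  growth h hh A hA g hg1 hg c hc hAc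

/-- Consequence: if `s^2 ≤ r(n) ≤ (s+1)^2` for all large `n` (`s ≥ 1`) then for every `ε > 0` and
all `q < 1` close to `1`
`(mean r - s (s+1))^2 + 2 s mean 1_{s^2 < r < (s+1)^2} ≤ (s+1)^2 / C + ε`. -/
theorem critical_interval (h : ℕ) (hh : 2 ≤ h) (A : Set ℕ) (s : ℕ) (hs : 1 ≤ s)
    (hr : ∀ᶠ n in atTop, s ^ 2 ≤ rep A h n ∧ rep A h n ≤ (s + 1) ^ 2) (ε : ℝ) (hε : 0 < ε) :
    ∀ᶠ q : ℝ in 𝓝[<] 1,
      (mean (fun n => (rep A h n : ℝ)) q - s * (s + 1)) ^ 2 +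
        2 * s * mean (fun n => if s ^ 2 < rep A h n ∧ rep A h n < (s + 1) ^ 2 then 1 else 0) q ≤
          ((s : ℝ) + 1) ^ 2 / (h.choose (h / 2) : ℝ) + ε := by
  have hA := infinite_of_basis h A (hr.mono fun n hn => le_trans (Nat.one_le_pow 2 s hs) hn.1)
  have hC1 : (1 : ℝ) ≤ (h.choose (h / 2) : ℝ) := by
    exact_mod_cast Nat.choose_pos (by omega : h / 2 ≤ h)
  obtain ⟨n₀, hn₀⟩ := eventually_atTop.1 hr
  obtain ⟨K, hK⟩ := Pool.Agent.TH854.BV.bounded_of_eventually A h ((s + 1) ^ 2) n₀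
    (fun n hn => (hn₀ n hn).2)
  exact Pool.Agent.TH854.BV.crit_of_law s (rep A h) K n₀ hK hn₀ _ hC1 ε hε
    (law h hh A hA K hK (ε / 3) (by positivity))

end Pool.Agent.Results.MP_d5a1e1_nt.BinomialVariance
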