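import Pool.Agent.TH521.DigBases2

/-!
# The Erdős–Turán conjecture of order `h` for bases closed under digitwise operations

`r A h n` is the number of representations of `n` as a sum of `h` elements of `A`, the order of the
summands being disregarded. We write the elements of a set in some base `g ≥ 2` and consider sets
`B` which are closed under an operation on the digits:

* `SemilatticeClosed`: the operation at the `j`-th place is a semilattice operation `op j`
  (idempotent, commutative, associative) on `{0, ..., g-1}`, which may depend on `j` (for instance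
  minimum, maximum, or the common digit if there is one and `0` otherwise);
* `MedianClosed`: the ternary digitwise median;
* `AffineClosed`: `a - b + c` digit by digit modulo `g` (sets of all numbers whose digits satisfy
  given linear congruences modulo `g`, for instance).

1. An asymptotic basis of order `h` which is a finite union of sets of these types, in possibly
   different bases `g i ≤ G`, has `r A h n ≥ n ^ c` for infinitely many `n`, with
   `c = c(h, G) > 0`; for the third type it is assumed that `h = 2` or `g i ^ (h - 1) > h ^ h`.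
2. For `h ≥ 3`, a set of the third type with at least `N ^ ε` elements below `N`, for infinitely many
   `N`, where `ε > log h / ((h - 1) log g)`, has `r n ≥ n ^ c` for infinitely many `n`.

Method. For the first two types two summands are enough; this is the cube argument of the starting
file `BitwiseClosed` (base two), applied to the sets of the pairs (place, element below the digit),
see `MP_12a1af_nt.DigitwiseClosed`. For the third type, the last summand `y` is chosen such that
`y + x_1 + ... + x_(h-1)` is constant digit by digit modulo `g`. This leaves `h` possibilities for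
the sum of the digits at each place, hence `h ^ n` possibilities for the sum, while there are
`|B| ^ (h - 1)` choices of `x_1, ..., x_(h-1)`.
-/

set_option autoImplicit false

namespace Pool.Agent.Results.MP_d5a1e1_nt.DigitwiseBases

open Filter

/-- The number of unordered representations of `n` as a sum of `h` elements of `A`. -/
noncomputable def r (A : Set ℕ) (h n : ℕ) : ℕ :=
  Set.ncard {s : Multiset ℕ | Multiset.card s = h ∧ (∀ a ∈ s, a ∈ A) ∧ s.sum = n}

/-- `A` is an asymptotic basis of order `h`. -/
def IsBasis (A : Set ℕ) (h : ℕ) : Prop :=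
  ∃ n₀ : ℕ, ∀ n : ℕ, n₀ ≤ n →
    ∃ s : Multiset ℕ, Multiset.card s = h ∧ (∀ a ∈ s, a ∈ A) ∧ s.sum = n

/-- The `j`-th digit of `a` in base `g`. -/
def digit (g a j : ℕ) : ℕ := a / g ^ j % g

/-- `B` is closed under a digitwise semilattice operation in base `g`; the operation may depend on
the place. -/
def SemilatticeClosed (g : ℕ) (B : Set ℕ) : Prop :=
  ∃ op : ℕ → ℕ → ℕ → ℕ,
    (∀ j x y z : ℕ, x < g → y < g → z < g → op j x y < g ∧ op j x x = x ∧ op j x y = op j y x ∧
      op j (op j x y) z = op j x (op j y z)) ∧
    ∀ a ∈ B, ∀ b ∈ B, ∃ d ∈ B, ∀ j, digit g d j = op j (digit g a j) (digit g b j)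

/-- `B` is closed under the digitwise median in base `g`. -/
def MedianClosed (g : ℕ) (B : Set ℕ) : Prop :=
  ∀ a ∈ B, ∀ b ∈ B, ∀ c ∈ B, ∃ d ∈ B, ∀ j, digit g d j =
    max (min (digit g a j) (digit g b j)) (min (max (digit g a j) (digit g b j)) (digit g c j))

/-- `B` is closed under `a - b + c`, digit by digit modulo `g`. -/
def AffineClosed (g : ℕ) (B : Set ℕ) : Prop :=
  ∀ a ∈ B, ∀ b ∈ B, ∀ c ∈ B, ∃ d ∈ B, ∀ j,
    (digit g d j + digit g b j) % g = (digit g a j + digit g c j) % g

/-- **The Erdős–Turán conjecture of order `h` for bases closed under digitwise operations.** -/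
theorem result :
    (∀ h : ℕ, 2 ≤ h → ∀ G : ℕ, ∃ c : ℝ, 0 < c ∧
      ∀ (A : Set ℕ) (m : ℕ) (B : Fin m → Set ℕ) (g : Fin m → ℕ),
      (∀ i, 2 ≤ g i ∧ g i ≤ G) →
      (∀ i, SemilatticeClosed (g i) (B i) ∨ MedianClosed (g i) (B i) ∨
        (AffineClosed (g i) (B i) ∧ (h = 2 ∨ h ^ h < g i ^ (h - 1)))) →
      A = ⋃ i, B i → IsBasis A h →
      ∃ᶠ n : ℕ in atTop, (n : ℝ) ^ c ≤ (r A h n : ℝ)) ∧
    (∀ h : ℕ, 3 ≤ h → ∀ g : ℕ, 2 ≤ g → ∀ ε : ℝ,
      Real.log h / (((h : ℝ) - 1) * Real.log g) < ε → ∃ c : ℝ, 0 < c ∧
      ∀ B : Set ℕ, AffineClosed g B →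
      (∃ᶠ N : ℕ in atTop, (N : ℝ) ^ ε ≤ ((B ∩ Set.Iio N).ncard : ℝ)) →
      ∃ᶠ n : ℕ in atTop, (n : ℝ) ^ c ≤ (r B h n : ℝ)) := by
  refine ⟨?_, ?_⟩
  · intro h hh G
    obtain ⟨c, hc, hmain⟩ := Pool.Agent.TH521.Dig.bases hh G
    refine ⟨c, hc, fun A m B g hg hB hAB H => hmain A m B g hg (fun i => ?_) hAB H⟩
    rcases hB i with h1 | h1 | h1
    · exact Or.inl (Or.inl h1)
    · exact Or.inl (Or.inr h1)
    · exact Or.inr h1
  · intro h hh g hg ε hε
    have hlg : 0 < Real.log g := Real.log_pos (by exact_mod_cast (by omega : 1 < g))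
    have hhR : (3 : ℝ) ≤ h := by exact_mod_cast hh
    rw [div_lt_iff₀ (mul_pos (by linarith) hlg)] at hε
    exact Pool.Agent.TH521.Dig.aff_freq_h hg (by omega) (by linarith)

end Pool.Agent.Results.MP_d5a1e1_nt.DigitwiseBases
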