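import Pool.Agent.H303R3.ET.ShiftFin
import Pool.Agent.H303R3.ET.Rep

set_option autoImplicit false

/-!
# MP_d5a1e1_nt: no shift nearly preserves a bounded representation function of order `h`

Let `h ≥ 2` and let `r_{A,h}(n)` be the number of multisets of `h` elements of `A` with sum `n`.
If `A` is an asymptotic basis of order `h` with `r_{A,h} ≤ K`, then for every shift `τ ≥ 1` the set
of the `n` with `r_{A,h}(n + τ) ≠ r_{A,h}(n)` has lower density at least `δ`, where `δ > 0` depends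
only on `h` and `K` (neither on `A` nor on `τ`).  The same holds, with `δ` depending also on `C`, for
all sets with `a_n ≤ C n ^ h`, whether they are bases or not.
-/

open Filter Topology

namespace Pool.Agent.Results.MP_d5a1e1_nt.ShiftGap

/-- `r_{A,h}(n)`: the number of `a₁ ≤ … ≤ a_h` in `A` with `a₁ + … + a_h = n`. -/
noncomputable def rep (A : Set ℕ) (h n : ℕ) : ℕ :=
  Set.ncard {a : Fin h → ℕ | Monotone a ∧ (∀ i, a i ∈ A) ∧ ∑ i, a i = n}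

/-- `A` is an asymptotic basis of order `h`. -/
def IsBasis (A : Set ℕ) (h : ℕ) : Prop := ∃ n₀ : ℕ, ∀ n : ℕ, n₀ ≤ n → 1 ≤ rep A h n

/-- `elt A n` is the `n`-th element `a_n` (`n ≥ 1`) of the infinite set `A` listed increasingly. -/
noncomputable def elt (A : Set ℕ) (n : ℕ) : ℕ := Nat.nth (· ∈ A) (n - 1)

theorem rep_eq (A : Set ℕ) (h n : ℕ) :
    rep A h n = Pool.Agent.H303R3.Rn A (Pool.Agent.H303R3.ET.Mo (k := h)) n := by
  classical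
  unfold rep Pool.Agent.H303R3.Rn
  rw [← Set.ncard_coe_finset]
  congr 1
  ext a
  rw [Finset.mem_coe, Finset.mem_filter, Pool.Agent.H303R3.mem_tup]
  constructor
  · rintro ⟨h1, h2, h3⟩
    exact ⟨⟨h2, h3⟩, h1⟩
  · rintro ⟨⟨h2, h3⟩, h1⟩
    exact ⟨h1, h2, h3⟩

open Pool.Agent.H303R3 Pool.Agent.H303R3.ET

theorem fr_ge_pow {A : Set ℕ} (hA : A.Infinite) {C : ℝ} (hC : 1 ≤ C) {h : ℕ}
    (ha : ∀ n, (Nat.nth (· ∈ A) n : ℝ) ≤ C * ((n : ℝ) + 1) ^ h) {q : ℝ} (h0 : 0 ≤ q) (h1 : q < 1)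
    {M : ℕ} (hM : C * (M : ℝ) ^ h ≤ (1 - q)⁻¹ / 2) : (M : ℝ) / 2 ≤ fr A q := by
  classical
  have hinj : Function.Injective (Nat.nth (· ∈ A)) := Nat.nth_injective hA
  have hq : 0 < 1 - q := by linarith
  have key : ∀ i ∈ Finset.range M, (1 / 2 : ℝ) ≤
      (if Nat.nth (· ∈ A) i ∈ A then (1 : ℝ) else 0) * q ^ Nat.nth (· ∈ A) i := by
    intro i hi
    have hmem : Nat.nth (· ∈ A) i ∈ A := Nat.nth_mem_of_infinite hA i
    rw [if_pos hmem, one_mul]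
    obtain ⟨a, hae⟩ : ∃ a, a = Nat.nth (· ∈ A) i := ⟨_, rfl⟩
    have hai := ha i
    rw [← hae] at hai ⊢
    have hiM : ((i : ℝ) + 1) ≤ M := by
      have := Finset.mem_range.mp hi
      exact_mod_cast this
    have h2 : (a : ℝ) ≤ C * (M : ℝ) ^ h := hai.trans (by gcongr)
    have h3 : (a : ℝ) * (1 - q) ≤ 1 / 2 := by
      calc (a : ℝ) * (1 - q) ≤ ((1 - q)⁻¹ / 2) * (1 - q) := by
            apply mul_le_mul_of_nonneg_right (h2.trans hM) hq.le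
        _ = 1 / 2 := by field_simp
    have h4 := one_add_mul_le_pow (a := q - 1) (by linarith) a
    have h5 : 1 + (q - 1) = q := by ring
    rw [h5] at h4
    linarith
  unfold fr
  calc (M : ℝ) / 2 = ∑ i ∈ Finset.range M, (1 / 2 : ℝ) := by
        rw [Finset.sum_const, Finset.card_range, nsmul_eq_mul]; ring
    _ ≤ ∑ i ∈ Finset.range M, (if Nat.nth (· ∈ A) i ∈ A then (1 : ℝ) else 0) *
          q ^ Nat.nth (· ∈ A) i := Finset.sum_le_sum key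
    _ = ∑ n ∈ (Finset.range M).image (Nat.nth (· ∈ A)), (if n ∈ A then (1 : ℝ) else 0) * q ^ n := by
        rw [Finset.sum_image (fun a _ b _ hab => hinj hab)]
    _ ≤ ∑' n, (if n ∈ A then (1 : ℝ) else 0) * q ^ n :=
        (summable_fr A h0 h1).sum_le_tsum _ (fun n _ => by positivity)

theorem fr_pow_ge {A : Set ℕ} (hA : A.Infinite) {C : ℝ} (hC : 1 ≤ C) {h : ℕ} (hh : 1 ≤ h)
    (ha : ∀ n, (Nat.nth (· ∈ A) n : ℝ) ≤ C * ((n : ℝ) + 1) ^ h) {q : ℝ} (h0 : 0 ≤ q) (h1 : q < 1)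
    (hT : 2 ^ h * (2 * C) ≤ (1 - q)⁻¹) :
    1 / (4 ^ h * (2 * C)) * (1 - q)⁻¹ ≤ fr A q ^ h := by
  obtain ⟨T, hTe⟩ : ∃ T : ℝ, T = (1 - q)⁻¹ := ⟨_, rfl⟩
  rw [← hTe] at hT ⊢
  have hC0 : 0 < C := by linarith
  have h2h : (0 : ℝ) < 2 ^ h := by positivity
  have hT0 : 0 < T := lt_of_lt_of_le (by positivity) hT
  have hhr : (h : ℝ) ≠ 0 := by
    have : (1 : ℝ) ≤ h := by exact_mod_cast hh
    linarith
  obtain ⟨x, hx⟩ : ∃ x : ℝ, x = (T / (2 * C)) ^ ((1 : ℝ) / h) := ⟨_, rfl⟩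
  have hx0 : 0 ≤ x := by rw [hx]; positivity
  have hxh : x ^ h = T / (2 * C) := by
    rw [hx, ← Real.rpow_natCast, ← Real.rpow_mul (by positivity), one_div, inv_mul_cancel₀ hhr,
      Real.rpow_one]
  have hx2 : 2 ≤ x := by
    by_contra hcon
    rw [not_le] at hcon
    have h3 : x ^ h < 2 ^ h := pow_lt_pow_left₀ hcon hx0 (by omega)
    rw [hxh, div_lt_iff₀ (by positivity)] at h3
    linarith
  obtain ⟨M, hM⟩ : ∃ M : ℕ, M = ⌊x⌋₊ := ⟨_, rfl⟩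
  have hM1 : (M : ℝ) ≤ x := by rw [hM]; exact Nat.floor_le hx0
  have hM2 : x < M + 1 := by rw [hM]; exact Nat.lt_floor_add_one x
  have hMC : C * (M : ℝ) ^ h ≤ (1 - q)⁻¹ / 2 := by
    rw [← hTe]
    calc C * (M : ℝ) ^ h ≤ C * x ^ h := by gcongr
      _ = T / 2 := by rw [hxh]; field_simp
  have h2 := fr_ge_pow hA hC ha h0 h1 hMC
  have h3 : x / 4 ≤ fr A q := by linarith
  calc 1 / (4 ^ h * (2 * C)) * T = (x / 4) ^ h := by rw [div_pow, hxh]; field_simp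
    _ ≤ fr A q ^ h := by gcongr

/-- From a lower bound for the generating function to the conclusion. -/
theorem core (h : ℕ) (hh : 2 ≤ h) (K : ℕ) {c0 : ℝ} (hc0 : 0 < c0) :
    ∃ δ : ℝ, 0 < δ ∧ ∀ A : Set ℕ, (∀ n, rep A h n ≤ K) →
      (∀ᶠ r : ℝ in 𝓝[<] 1, c0 * (1 - r ^ 2)⁻¹ ≤ fr A (r ^ 2) ^ h) → ∀ τ : ℕ, 1 ≤ τ →
      ∀ᶠ N : ℕ in atTop,
        δ * N ≤ ({n : ℕ | n < N ∧ rep A h (n + τ) ≠ rep A h n}.ncard : ℝ) := by
  obtain ⟨δ, hδ0, hδ1, h1⟩ := shift_abel (k := h) hh (Mo (k := h)) (fun _ => (1 : ℤ)) hstab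
    le_rfl (fun σ _ => by norm_num) K hc0
  refine ⟨δ / (2 * Real.log (2 / δ)), ?_, ?_⟩
  · have : 0 < Real.log (2 / δ) := Real.log_pos (by rw [lt_div_iff₀ hδ0]; linarith)
    positivity
  intro A hK hA τ hτ
  have h2 := h1 A (fun n => by rw [← rep_eq]; exact hK n) hA τ hτ
  have h3 := abel_count hδ0 hδ1 h2
  filter_upwards [h3] with N hN
  refine hN.trans (le_of_eq ?_)
  congr 2
  ext n
  simp only [Ch, Set.mem_ofPred_eq, rep_eq]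

theorem uniform_basis (h : ℕ) (hh : 2 ≤ h) (K : ℕ) : ∃ δ : ℝ, 0 < δ ∧ ∀ A : Set ℕ, IsBasis A h →
    (∀ n, rep A h n ≤ K) → ∀ τ : ℕ, 1 ≤ τ → ∀ᶠ N : ℕ in atTop,
      δ * N ≤ ({n : ℕ | n < N ∧ rep A h (n + τ) ≠ rep A h n}.ncard : ℝ) := by
  obtain ⟨δ, hδ, h1⟩ := core h hh K (c0 := 1 / 2) (by norm_num)
  refine ⟨δ, hδ, fun A hA hK τ hτ => h1 A hK ?_ τ hτ⟩
  obtain ⟨n₀, hn₀⟩ := hA
  have hcont : Tendsto (fun r : ℝ => (r ^ 2) ^ n₀) (𝓝[<] 1) (𝓝 1) := by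
    have : Tendsto (fun r : ℝ => (r ^ 2) ^ n₀) (𝓝 1) (𝓝 ((1 ^ 2) ^ n₀)) :=
      ((continuous_pow 2).pow n₀).tendsto 1
    rw [one_pow, one_pow] at this
    exact this.mono_left nhdsWithin_le_nhds
  filter_upwards [Ioo_mem_nhdsLT (show (0 : ℝ) < 1 by norm_num),
    hcont.eventually (eventually_ge_nhds (show (1 / 2 : ℝ) < 1 by norm_num))] with r hr hr2
  have hq0 : 0 ≤ r ^ 2 := by positivity
  have hq1 : r ^ 2 < 1 := by nlinarith [hr.1, hr.2]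
  have h5 : 0 < 1 - r ^ 2 := by linarith
  refine le_trans ?_ (fr_lower (k := h) A (fun n hn => by rw [← rep_eq]; exact hn₀ n hn) hq0 hq1)
  gcongr

theorem uniform_sets (h : ℕ) (hh : 2 ≤ h) (C : ℝ) (K : ℕ) : ∃ δ : ℝ, 0 < δ ∧ ∀ A : Set ℕ,
    A.Infinite → (∀ n : ℕ, 1 ≤ n → (elt A n : ℝ) ≤ C * (n : ℝ) ^ h) → (∀ n, rep A h n ≤ K) →
    ∀ τ : ℕ, 1 ≤ τ → ∀ᶠ N : ℕ in atTop,
      δ * N ≤ ({n : ℕ | n < N ∧ rep A h (n + τ) ≠ rep A h n}.ncard : ℝ) := by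
  obtain ⟨C', hC'⟩ : ∃ C' : ℝ, C' = max C 1 := ⟨_, rfl⟩
  have hC1 : 1 ≤ C' := by rw [hC']; exact le_max_right _ _
  have hCC : C ≤ C' := by rw [hC']; exact le_max_left _ _
  obtain ⟨δ, hδ, h1⟩ := core h hh K (c0 := 1 / (4 ^ h * (2 * C'))) (by positivity)
  refine ⟨δ, hδ, fun A hA ha hK τ hτ => h1 A hK ?_ τ hτ⟩
  filter_upwards [Ioo_mem_nhdsLT (show (0 : ℝ) < 1 by norm_num),
    tendsto_T.eventually_ge_atTop (2 ^ h * (2 * C'))] with r hr hr2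
  obtain ⟨h0, h1'⟩ := hr
  refine fr_pow_ge hA hC1 (by omega) (fun n => ?_) (by positivity) (by nlinarith) hr2
  have h3 := ha (n + 1) (by omega)
  unfold elt at h3
  rw [Nat.add_sub_cancel] at h3
  push_cast at h3
  exact h3.trans (by gcongr)

/-- For every `h ≥ 2`:

(1) for every `K` there is `δ > 0` such that for every asymptotic basis `A` of order `h` with
`r_{A,h} ≤ K` and every `τ ≥ 1` one has `#{n < N : r_{A,h}(n + τ) ≠ r_{A,h}(n)} ≥ δ N` for all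
large `N`;

(2) for all `C` and `K` there is `δ > 0` such that the same holds for every infinite `A ⊆ ℕ` with
`a_n ≤ C n ^ h` for all `n ≥ 1` and `r_{A,h} ≤ K`;

(3) hence `r_{A,h}` is unbounded for every asymptotic basis `A` of order `h` such that for each
`δ > 0` some shift `τ ≥ 1` satisfies `#{n < N : r_{A,h}(n + τ) ≠ r_{A,h}(n)} < δ N` for arbitrarily
large `N`. -/
theorem result (h : ℕ) (hh : 2 ≤ h) :
    (∀ K : ℕ, ∃ δ : ℝ, 0 < δ ∧ ∀ A : Set ℕ, IsBasis A h → (∀ n, rep A h n ≤ K) →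
      ∀ τ : ℕ, 1 ≤ τ → ∀ᶠ N : ℕ in atTop,
        δ * N ≤ ({n : ℕ | n < N ∧ rep A h (n + τ) ≠ rep A h n}.ncard : ℝ)) ∧
    (∀ (C : ℝ) (K : ℕ), ∃ δ : ℝ, 0 < δ ∧ ∀ A : Set ℕ, A.Infinite →
      (∀ n : ℕ, 1 ≤ n → (elt A n : ℝ) ≤ C * (n : ℝ) ^ h) → (∀ n, rep A h n ≤ K) →
      ∀ τ : ℕ, 1 ≤ τ → ∀ᶠ N : ℕ in atTop,
        δ * N ≤ ({n : ℕ | n < N ∧ rep A h (n + τ) ≠ rep A h n}.ncard : ℝ)) ∧
    (∀ A : Set ℕ, IsBasis A h →
      (∀ δ : ℝ, 0 < δ → ∃ τ : ℕ, 1 ≤ τ ∧ ∃ᶠ N : ℕ in atTop,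
        ({n : ℕ | n < N ∧ rep A h (n + τ) ≠ rep A h n}.ncard : ℝ) < δ * N) →
      ∀ K : ℕ, ∃ n : ℕ, K < rep A h n) := by
  refine ⟨uniform_basis h hh, uniform_sets h hh, fun A hA hex K => ?_⟩
  by_contra hcon
  push Not at hcon
  obtain ⟨δ, hδ, h1⟩ := uniform_basis h hh K
  obtain ⟨τ, hτ, h2⟩ := hex δ hδ
  have h3 := h1 A hA hcon τ hτ
  obtain ⟨N, hN1, hN2⟩ := (h2.and_eventually h3).exists
  exact absurd hN2 (not_le.mpr hN1)

end Pool.Agent.Results.MP_d5a1e1_nt.ShiftGap
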