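import Pool.Agent.TH314.ETH.Res

/-!
# MP_d5a1e1_nt: distribution modulo one and in residue classes of bases of order `h`

`rep A h n` is the number of representations of `n` as a sum of `h` elements of `A`, the order of
the summands being disregarded. Let `h ≥ 2`, and let `A` be an asymptotic basis of order `h`, or
any infinite set with `a_n ≤ C n ^ h`, whose representation function of order `h` is bounded, or
only bounded in mean square (`∑_{n < N} rep A h n ^ 2 ≤ B N`).

1. The set of the real `θ` for which the sequence `θ a_n` (`a_0 < a_1 < ...` the elements of `A`)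
   is not uniformly distributed modulo one has Hausdorff dimension zero.
2. For every `η > 0` all but finitely many `θ ∈ [0, 1)` are such that `θ A` meets every open arc
   of length `2 η` modulo one. So `θ A` is dense modulo one for all but countably many `θ`.
3. For the rational `θ`: if `res A q` denotes the number of residue classes modulo `q` which meet
   `A`, then `res A q ^ h / q → ∞` as `q → ∞`.

Method: by the large sieve inequality for the representation function of order `h` the set of
the frequencies `θ` modulo one with `|∑_{a ≤ N} e(a θ)| ≥ ε A(N)` is covered by a bounded number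
of intervals of length `2 / N`.
-/

set_option autoImplicit false

namespace Pool.Agent.Results.MP_d5a1e1_nt.UniformDistribution

open Filter Finset Topology Pool.Agent.TH314.ETH Pool.Agent.TH314.ET

/-- **Distribution modulo one and in residue classes.** -/
theorem result (h : ℕ) (hh : 2 ≤ h) :
    -- 0. bounded representation functions are bounded in mean square
    (∀ A : Set ℕ, (∃ K : ℕ, ∀ n, Pool.Agent.TH314.ETH.rep A h n ≤ K) →
      Pool.Agent.TH314.ETH.MeanSq A h) ∧
    (∀ A : Set ℕ, Pool.Agent.TH314.ETH.IsBasis A h ∨ Growth A h →
      Pool.Agent.TH314.ETH.MeanSq A h →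
      -- 1. uniform distribution
      dimH {θ : ℝ | ¬ Pool.Agent.H84R3.UD (fun n => θ * en A n)} = 0 ∧
      -- 2. density
      (∀ η : ℝ, 0 < η →
        {θ : ℝ | 0 ≤ θ ∧ θ < 1 ∧ ∃ t : ℝ, ∀ a ∈ A, ∀ z : ℤ, η ≤ |θ * a - t - z|}.Finite) ∧
      {θ : ℝ | ¬ Dense {x : ℝ | ∃ a ∈ A, ∃ z : ℤ, x = θ * a + z}}.Countable ∧
      -- 3. residue classes
      Tendsto (fun q : ℕ => (res A q : ℝ) ^ h / q) atTop atTop) := by
  have hh1 : 1 ≤ h := by omega
  refine ⟨fun A hA => meanSq_of_bounded A h hA, fun A hA hr => ?_⟩
  have hthick : Pool.Agent.TH314.ETH.ThickAll A h := by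
    rcases hA with hA | hA
    · exact thickAll_of_basis A hh1 hA
    · exact thickAll_of_growth A hh1 hA
  have hinf : A.Infinite := by
    rcases hA with hA | hA
    · exact Pool.Agent.TH314.ETH.infinite_of_basis A hA
    · exact hA.1
  have hT := thick_of_all hthick
  exact ⟨Pool.Agent.TH314.ETH.ud_dim A hinf hh1 hthick hr,
    fun η hη => Pool.Agent.TH314.ETH.miss_finite A hh1 hT hr hη,
    Pool.Agent.TH314.ETH.dense_countable A hh1 hT hr,
    Pool.Agent.TH314.ETH.res_tendsto A hh hT hr⟩

end Pool.Agent.Results.MP_d5a1e1_nt.UniformDistribution
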